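import Pool.Agent.H682R3.LC.Super

/-!
# Linear circuits with arbitrary scalars and limited cancellation
-/

namespace Pool.Agent.Results.MP_5daf37_lc.BoundedCancellation

open H633LC Pool.Agent.H682R3.LC

/-- `𝕜` is `ℝ` or `ℂ`, scalars and depth are unrestricted. `W v j`: total absolute weight of the
paths from `x_j` to `v` avoiding the set `T` of exceptional nodes.

(1) If a linear circuit computes a matrix `A` with an `m × m` block `U`, `U* U = x · 1`, and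
`W ≤ B` for the inputs and outputs of the block, then
`(m - |T|) log₂ (√x / B) ≤ |E| + m`, `E` the set of edges.
(2) For the explicit matrices `hadMat n` (Sylvester blocks of order `m = 2 ^ (log₂ n)`): if
`|T| ≤ (1 - δ) m` and `W ≤ m ^ (1/2 - ε)` on the block then
`|E| ≥ (n / 2) (δ ε (log₂ n - 1) - 1)`. -/
theorem result :
    (∀ (𝕜 : Type) [RCLike 𝕜] (n r : ℕ) (C : LinCircuit 𝕜 n r) (T : Finset C.V),
      (∃! W : C.V → Fin n → ℝ, IsAbsWeight C T W) ∧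
      ∀ W : C.V → Fin n → ℝ, IsAbsWeight C T W →
      ∀ A : Fin r → Fin n → 𝕜, C.Computes A →
      ∀ (m : ℕ) (ρ : Fin m → Fin r) (γ : Fin m → Fin n), Function.Injective γ →
      ∀ x : ℝ, 0 < x →
      (∀ j j', ∑ i, star (A (ρ i) (γ j)) * A (ρ i) (γ j') = if j = j' then (x : 𝕜) else 0) →
      T.card ≤ m → ∀ B : ℝ, 0 < B → (∀ i j, W (C.out (ρ i)) (γ j) ≤ B) →
      ((m : ℝ) - T.card) * Real.logb 2 (√x / B) ≤ C.E.card + m) ∧
    (∀ (𝕜 : Type) [RCLike 𝕜] (n : ℕ), 1 ≤ n → ∀ C : LinCircuit 𝕜 n n,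
      C.Computes (hadMat 𝕜 n) → ∀ T : Finset C.V, ∀ W : C.V → Fin n → ℝ, IsAbsWeight C T W →
      ∀ ε δ : ℝ, 0 ≤ ε → 0 ≤ δ → (T.card : ℝ) ≤ (1 - δ) * 2 ^ Nat.log 2 n →
      (∀ i j : Fin n, (i : ℕ) < 2 ^ Nat.log 2 n → (j : ℕ) < 2 ^ Nat.log 2 n →
        W (C.out i) j ≤ ((2 : ℝ) ^ Nat.log 2 n) ^ (1 / 2 - ε)) →
      (n / 2 : ℝ) * (δ * ε * (Real.logb 2 n - 1) - 1) ≤ C.E.card) :=
  ⟨fun _ _ _ _ C T => ⟨exists_unique_absWeight C T, fun W hW A hA _ ρ γ hγ x hx hU hT B hB hWB =>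
    unitary_bound C A hA ρ γ hγ x hx hU T hT W hW B hB hWB⟩,
  fun _ _ n hn C hC T W hW ε δ hε hδ hT hB => superlinear n hn C hC T W hW ε δ hε hδ hT hB⟩

end Pool.Agent.Results.MP_5daf37_lc.BoundedCancellation
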