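import Pool.Agent.H682R3.Few.Fat

/-!
# Linear circuits without many fat gates are large
-/

namespace Pool.Agent.Results.MP_5daf37_lc.FatGates

open Finset H633LC Pool.Agent.H682R3.Few

/-- Let `A` be an `n × n` matrix over a field, all of whose minors (of all orders) are nonzero, and
let `C` be a linear circuit computing `A`. Call a node `κ`-fat if more than `κ` variables have a
directed path to it and more than `κ` outputs can be reached from it. If fewer than `s` nodes are
`κ`-fat, where `8 s 2^(8 s) ≤ n`, then the size of `C` is at least `n² / (4 κ²)`. -/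
theorem result (F : Type) [Field F] (n : ℕ) (A : Fin n → Fin n → F)
    (hA : ∀ (k : ℕ) (p q : Fin k → Fin n), Function.Injective p → Function.Injective q →
      Matrix.det (Matrix.of fun a b => A (p a) (q b)) ≠ 0)
    (C : LinCircuit F n n) (hC : C.Computes A) (κ s : ℕ) (hκ : 1 ≤ κ) (hs : 1 ≤ s)
    (hn : 8 * s * 2 ^ (8 * s) ≤ n) (hfat : (fat C κ).card < s) :
    (n : ℝ) ^ 2 / (4 * κ ^ 2) ≤ C.size := by
  have h := fat_bound C A hC hA κ hκ s hs hn hfat
  have hκ0 : (0 : ℝ) < 4 * (κ : ℝ) ^ 2 := by
    have : (0 : ℝ) < κ := by exact_mod_cast hκ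
    positivity
  rw [div_le_iff₀ hκ0]
  have h1 : (n : ℝ) ^ 2 ≤ 4 * (κ : ℝ) ^ 2 * C.size := by exact_mod_cast h
  linarith

end Pool.Agent.Results.MP_5daf37_lc.FatGates
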