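import Pool.Agent.H682R3.Few.Example

/-!
# Linear circuits with fewer than `(2 - δ) n²` input-output paths
-/

namespace Pool.Agent.Results.MP_5daf37_lc.FewPaths

open Finset H633LC Pool.Agent.H682R3.Few

/-- the explicit matrix `1 / (i + j + 1)` (Hilbert matrix) -/
def hilbert (F : Type) [Field F] (n : ℕ) (i j : Fin n) : F :=
  ((((i : ℕ) + (j : ℕ) + 1 : ℕ) : F))⁻¹

/-- the explicit matrix `1 + i j` -/
def rankTwo (F : Type) [Field F] (n : ℕ) (i j : Fin n) : F :=
  1 + ((i : ℕ) : F) * ((j : ℕ) : F)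

/-- (1) Let all entries and all `2 × 2` minors of the `n × n` matrix `A` be nonzero and let `f j w`
be the number of directed paths from the nodes carrying `x_j` to the node `w` of a linear circuit
computing `A`. If the total number of input-output paths is at most `(2 - δ) n²`, then the size is
at least `δ⁵ n² / 20000`. (2) In characteristic zero the matrices `1 / (i + j + 1)` and `1 + i j`
have this property. (3) The threshold `2` is sharp: the matrix `1 + i j` has a linear circuit with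
exactly `2 n²` input-output paths and size at most `6 n + 2`. -/
theorem result (F : Type) [Field F] [CharZero F] (n : ℕ) :
    (∀ A : Fin n → Fin n → F, (∀ i j, A i j ≠ 0) →
      (∀ i i' j j', i ≠ i' → j ≠ j' → A i j * A i' j' ≠ A i j' * A i' j) →
      ∀ C : LinCircuit F n n, C.Computes A → ∀ δ : ℝ, 0 < δ → δ ≤ 2 →
      ∀ f : Fin n → C.V → ℕ, (∀ j, (dag C).IsCount ∅ (start C.label j) (f j)) →
      ((∑ i, ∑ j, f j (C.out i) : ℕ) : ℝ) ≤ (2 - δ) * (n : ℝ) ^ 2 →
      δ ^ 5 * (n : ℝ) ^ 2 / 20000 ≤ C.size) ∧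
    ((∀ i j, hilbert F n i j ≠ 0) ∧
      (∀ i i' j j', i ≠ i' → j ≠ j' →
        hilbert F n i j * hilbert F n i' j' ≠ hilbert F n i j' * hilbert F n i' j)) ∧
    ((∀ i j, rankTwo F n i j ≠ 0) ∧
      (∀ i i' j j', i ≠ i' → j ≠ j' →
        rankTwo F n i j * rankTwo F n i' j' ≠ rankTwo F n i j' * rankTwo F n i' j)) ∧
    (∃ C : LinCircuit F n n, C.Computes (rankTwo F n) ∧
      ∃ f : Fin n → C.V → ℕ, (∀ j, (dag C).IsCount ∅ (start C.label j) (f j)) ∧
        ∑ i, ∑ j, f j (C.out i) = 2 * n ^ 2 ∧ C.size ≤ 6 * n + 2) := by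
  refine ⟨?_, ⟨?_, ?_⟩, ⟨?_, ?_⟩, ?_⟩
  · intro A hA1 hA2 C hC δ hδ hδ2 f hf hN
    exact linear_bound C A hC hA1 hA2 δ hδ hδ2 f hf hN
  · intro i j
    exact inv_ne_zero (Nat.cast_ne_zero.mpr (by omega))
  · intro i i' j j' hi hj h
    have hi' : (i : ℕ) ≠ i' := fun h => hi (Fin.ext h)
    have hj' : (j : ℕ) ≠ j' := fun h => hj (Fin.ext h)
    unfold hilbert at h
    rw [← mul_inv, ← mul_inv, inv_inj, ← Nat.cast_mul, ← Nat.cast_mul, Nat.cast_inj] at h
    have h1 : ((i : ℤ) - i') * ((j : ℤ) - j') = 0 := by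
      have h2 : (((i : ℤ) + j + 1) * (i' + j' + 1)) = (i + j' + 1) * (i' + j + 1) := by
        exact_mod_cast h
      linarith [h2, mul_comm (i : ℤ) j]
    rcases mul_eq_zero.mp h1 with h2 | h2
    · exact hi' (by exact_mod_cast sub_eq_zero.mp h2)
    · exact hj' (by exact_mod_cast sub_eq_zero.mp h2)
  · intro i j
    unfold rankTwo
    have : ((1 + (i : ℕ) * (j : ℕ) : ℕ) : F) ≠ 0 := Nat.cast_ne_zero.mpr (by omega)
    push_cast at this
    exact this
  · intro i i' j j' hi hj h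
    have hi' : (i : ℕ) ≠ i' := fun h => hi (Fin.ext h)
    have hj' : (j : ℕ) ≠ j' := fun h => hj (Fin.ext h)
    unfold rankTwo at h
    have h0 : ((((1 + (i : ℕ) * j) * (1 + (i' : ℕ) * j') : ℕ)) : F) =
        (((1 + (i : ℕ) * j') * (1 + (i' : ℕ) * j) : ℕ)) := by
      push_cast
      exact h
    rw [Nat.cast_inj] at h0
    have h1 : ((i : ℤ) - i') * ((j : ℤ) - j') = 0 := by
      have h2 : ((1 + (i : ℤ) * j) * (1 + i' * j')) = (1 + i * j') * (1 + i' * j) := by
        exact_mod_cast h0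
      linarith [h2]
    rcases mul_eq_zero.mp h1 with h2 | h2
    · exact hi' (by exact_mod_cast sub_eq_zero.mp h2)
    · exact hj' (by exact_mod_cast sub_eq_zero.mp h2)
  · refine ⟨two F n, fun i j => rfl, fun j => pathsTwo n j, two_count F n, ?_, two_size F n⟩
    have : ∀ i j : Fin n, pathsTwo n j ((two F n).out i) = 2 := fun i j => rfl
    simp only [this]
    simp
    ring

end Pool.Agent.Results.MP_5daf37_lc.FewPaths
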